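import Pool.Agent.Work.MP_898d8d_co.Main
import Pool.Agent.Work.MP_898d8d_co.PartCore

namespace Pool.Agent.Results.MP_898d8d_co.LinearCore

open Pool.Agent.Work.MP_898d8d_co

/-- The linear core property of slice rank and of partition rank, in every order `d ≥ 2` and over
every field, with constants that depend only on `d` and with threshold `r₀ = 0`. -/
theorem result {d : ℕ} (hd : 2 ≤ d) : ∃ L β : ℝ, 0 < L ∧ 0 < β ∧
    ∀ (F : Type*) [Field F] (T : Tensor F d),
      (∃ J : Fin d → Finset ℕ, (∀ i, ((J i).card : ℝ) ≤ L * sliceRank T) ∧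
        β * sliceRank T ≤ sliceRank (restrict T J)) ∧
      (∃ J : Fin d → Finset ℕ, (∀ i, ((J i).card : ℝ) ≤ L * partitionRank T) ∧
        β * partitionRank T ≤ partitionRank (restrict T J)) := by
  obtain ⟨L, C, hL, hC, h⟩ := exists_part_core hd
  have hL' : (1 : ℝ) ≤ L := by exact_mod_cast hL
  have hC' : (0 : ℝ) < (C + 18 * d ^ 2 : ℕ) := by exact_mod_cast (by omega : 0 < C + 18 * d ^ 2)
  refine ⟨L, ((C + 18 * d ^ 2 : ℕ) : ℝ)⁻¹, by linarith, inv_pos.mpr hC', fun F _ T => ⟨?_, ?_⟩⟩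
  · obtain ⟨J, h1, h2⟩ := exists_core (by omega) T (sliceRank T) le_rfl
    refine ⟨J, fun i => ?_, ?_⟩
    · exact_mod_cast (h1 i).trans (Nat.le_mul_of_pos_left _ hL)
    · rw [inv_mul_le_iff₀ hC']
      exact_mod_cast h2.trans (Nat.mul_le_mul_right _ (by omega))
  · obtain ⟨J, h1, h2⟩ := h F T
    refine ⟨J, fun i => by exact_mod_cast h1 i, ?_⟩
    rw [inv_mul_le_iff₀ hC']
    exact_mod_cast h2.trans (Nat.mul_le_mul_right _ (by omega))

end Pool.Agent.Results.MP_898d8d_co.LinearCore
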